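import Mathlib

/-!
# MP_93a94a_an

For the recurrence `x_{n+1} = α_n / (x_n ⋯ x_{n-k}) + 1 / (x_{n-k-2} ⋯ x_{n-2k-2})` with nonnegative
coefficients of prime period `p ≥ 2` we show that *no* positive solution tends to a
`(k+2)`-periodic solution: the product `Q_n = x_n ⋯ x_{n-k-1}` satisfies
`Q_{n+1} = α_n + Q_n / Q_{n-k-1}`, and along a solution asymptotic to a positive `(k+2)`-periodic
sequence `Q_n` converges, which forces `α_n` to converge, hence to be constant.
-/

namespace Pool.Agent.Results.MP_93a94a_an.NeverHolds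

open Filter Topology

/-- `x` (on the integers `≥ -(2k+2)`) is a positive solution of (E). -/
def IsPosSol (k : ℕ) (α : ℕ → ℝ) (x : ℤ → ℝ) : Prop :=
  (∀ n : ℤ, -(2 * k + 2) ≤ n → 0 < x n) ∧
  ∀ n : ℕ, x (n + 1) = α n / ∏ i ∈ Finset.range (k + 1), x (n - i)
    + 1 / ∏ i ∈ Finset.range (k + 1), x (n - k - 2 - i)

/-- `x` tends to a `(k+2)`-periodic (positive) solution of (E). -/
def TendsToPeriodic (k : ℕ) (α : ℕ → ℝ) (x : ℤ → ℝ) : Prop :=
  ∃ y : ℤ → ℝ, IsPosSol k α y ∧ (∀ n : ℤ, -(2 * k + 2) ≤ n → y (n + k + 2) = y n) ∧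
    Tendsto (fun n : ℤ => x n - y n) atTop (𝓝 0)

/-- `p` is the prime period of `α`. -/
def PrimePeriod (α : ℕ → ℝ) (p : ℕ) : Prop :=
  0 < p ∧ (∀ n, α (n + p) = α n) ∧ ∀ q, 0 < q → q < p → ¬ ∀ n, α (n + q) = α n

/-- products of `k+2` consecutive terms -/
noncomputable def Q (k : ℕ) (x : ℤ → ℝ) (n : ℤ) : ℝ := ∏ i ∈ Finset.range (k + 2), x (n - i)

lemma Q_pos (k : ℕ) (α : ℕ → ℝ) (x : ℤ → ℝ) (hx : IsPosSol k α x) (n : ℤ)
    (hn : -(k + 1 : ℤ) ≤ n) : 0 < Q k x n := by
  refine Finset.prod_pos fun i hi => hx.1 _ ?_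
  have := Finset.mem_range.1 hi
  omega

lemma Q_rec (k : ℕ) (α : ℕ → ℝ) (x : ℤ → ℝ) (hx : IsPosSol k α x) (n : ℕ) :
    Q k x (n + 1) = α n + Q k x n / Q k x (n - k - 1) := by
  have h1 : Q k x ((n : ℤ) + 1) = x (n + 1) * ∏ i ∈ Finset.range (k + 1), x (n - i) := by
    unfold Q
    rw [Finset.prod_range_succ' _ (k + 1), mul_comm]
    congr 1
    simp
  have h2 : Q k x (n : ℤ) = (∏ i ∈ Finset.range (k + 1), x (n - i)) * x (n - k - 1) := by
    unfold Q
    rw [Finset.prod_range_succ _ (k + 1)]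
    congr 2; push_cast; ring
  have h3 : Q k x ((n : ℤ) - k - 1) = x (n - k - 1) *
      ∏ i ∈ Finset.range (k + 1), x (n - k - 2 - i) := by
    unfold Q
    rw [Finset.prod_range_succ' _ (k + 1), mul_comm]
    congr 1
    · simp
    · refine Finset.prod_congr rfl fun i _ => ?_
      congr 1; push_cast; ring
  have p1 : 0 < ∏ i ∈ Finset.range (k + 1), x ((n : ℤ) - i) := by
    refine Finset.prod_pos fun i hi => hx.1 _ ?_
    have := Finset.mem_range.1 hi
    omega
  have p2 : 0 < x ((n : ℤ) - k - 1) := hx.1 _ (by omega)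
  have p3 : 0 < ∏ i ∈ Finset.range (k + 1), x ((n : ℤ) - k - 2 - i) := by
    refine Finset.prod_pos fun i hi => hx.1 _ ?_
    have := Finset.mem_range.1 hi
    omega
  rw [h1, h2, h3, hx.2 n]
  field_simp

/-- a periodic sequence is bounded below by a positive constant -/
lemma periodic_lower (k : ℕ) (y : ℤ → ℝ) (hy : ∀ n : ℤ, -(2 * k + 2) ≤ n → 0 < y n)
    (hp : ∀ n : ℤ, -(2 * k + 2) ≤ n → y (n + k + 2) = y n) :
    ∃ c : ℝ, 0 < c ∧ ∀ n : ℤ, -(2 * k + 2) ≤ n → c ≤ y n := by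
  obtain ⟨c, hc, hcle⟩ : ∃ c : ℝ, 0 < c ∧ ∀ i ∈ Finset.range (k + 2), c ≤ y (-(2 * k + 2) + i) := by
    have hne : (Finset.range (k + 2)).Nonempty := ⟨0, by simp⟩
    obtain ⟨j, hj, hmin⟩ := Finset.exists_min_image (Finset.range (k + 2))
      (fun i => y (-(2 * (k : ℤ) + 2) + (i : ℕ))) hne
    exact ⟨_, hy _ (by omega), hmin⟩
  refine ⟨c, hc, ?_⟩
  have key : ∀ m : ℕ, c ≤ y (-(2 * k + 2) + m) := by
    intro m
    induction m using Nat.strong_induction_on with
    | _ m ih =>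
      by_cases hm : m < k + 2
      · exact hcle m (Finset.mem_range.2 hm)
      · have h1 := ih (m - (k + 2)) (by omega)
        have h2 := hp (-(2 * (k : ℤ) + 2) + ((m - (k + 2) : ℕ) : ℤ)) (by omega)
        have h3 : (-(2 * (k : ℤ) + 2) + ((m - (k + 2) : ℕ) : ℤ)) + k + 2 = -(2 * (k : ℤ) + 2) + m := by
          omega
        rw [h3] at h2
        rw [h2]; exact h1
  intro n hn
  have h := key (n + (2 * k + 2)).toNat
  have h4 : -(2 * (k : ℤ) + 2) + ((n + (2 * k + 2)).toNat : ℤ) = n := by omega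
  rwa [h4] at h

lemma Q_periodic (k : ℕ) (y : ℤ → ℝ)
    (hp : ∀ n : ℤ, -(2 * k + 2) ≤ n → y (n + k + 2) = y n) (m : ℕ) :
    Q k y m = Q k y 0 := by
  induction m with
  | zero => simp
  | succ m ih =>
    rw [← ih]
    have h1 : Q k y (((m + 1 : ℕ) : ℤ)) = y (m + 1) * ∏ i ∈ Finset.range (k + 1), y (m - i) := by
      unfold Q
      rw [Finset.prod_range_succ' _ (k + 1), mul_comm]
      congr 1
      simp
    have h2 : Q k y (m : ℤ) = (∏ i ∈ Finset.range (k + 1), y (m - i)) * y (m - k - 1) := by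
      unfold Q
      rw [Finset.prod_range_succ _ (k + 1)]
      congr 2; push_cast; ring
    have h3 := hp ((m : ℤ) - k - 1) (by omega)
    have h4 : (m : ℤ) - k - 1 + k + 2 = m + 1 := by ring
    rw [h4] at h3
    rw [h1, h2, h3]; ring

/-- along a sequence asymptotic to a positive `(k+2)`-periodic sequence, `Q` converges -/
lemma Q_tendsto (k : ℕ) (x y : ℤ → ℝ) (hy : ∀ n : ℤ, -(2 * k + 2) ≤ n → 0 < y n)
    (hp : ∀ n : ℤ, -(2 * k + 2) ≤ n → y (n + k + 2) = y n)
    (hxy : Tendsto (fun n : ℤ => x n - y n) atTop (𝓝 0)) :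
    Tendsto (fun n : ℤ => Q k x n) atTop (𝓝 (Q k y 0)) := by
  obtain ⟨c, hc, hcle⟩ := periodic_lower k y hy hp
  have h1 : Tendsto (fun n : ℤ => x n / y n) atTop (𝓝 1) := by
    have h2 : Tendsto (fun n : ℤ => (x n - y n) / y n) atTop (𝓝 0) := by
      rw [tendsto_zero_iff_abs_tendsto_zero]
      have h3 : Tendsto (fun n : ℤ => |x n - y n| / c) atTop (𝓝 0) := by
        have := (tendsto_zero_iff_abs_tendsto_zero _).1 hxy
        simpa using this.div_const c
      refine squeeze_zero' (Eventually.of_forall fun n => abs_nonneg _) ?_ h3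
      filter_upwards [eventually_ge_atTop (0 : ℤ)] with n hn
      have hyn := hcle n (by omega)
      have hyp : 0 < y n := lt_of_lt_of_le hc hyn
      simp only [Function.comp, abs_div, abs_of_pos hyp]
      exact div_le_div_of_nonneg_left (abs_nonneg _) hc hyn
    have h4 : Tendsto (fun n : ℤ => (x n - y n) / y n + 1) atTop (𝓝 (0 + 1)) := h2.add_const 1
    rw [zero_add] at h4
    refine h4.congr' ?_
    filter_upwards [eventually_ge_atTop (0 : ℤ)] with n hn
    have hyp : 0 < y n := hy n (by omega)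
    field_simp
    ring
  have h5 : Tendsto (fun n : ℤ => ∏ i ∈ Finset.range (k + 2), x (n - i) / y (n - i)) atTop
      (𝓝 (∏ i ∈ Finset.range (k + 2), 1)) := by
    refine tendsto_finsetProd _ fun i _ => ?_
    exact h1.comp (tendsto_atTop_add_const_right _ (-(i : ℤ)) tendsto_id)
  rw [Finset.prod_const_one] at h5
  have h6 := h5.mul_const (Q k y 0)
  rw [one_mul] at h6
  refine h6.congr' ?_
  filter_upwards [eventually_ge_atTop (0 : ℤ)] with n hn
  obtain ⟨m, rfl⟩ := Int.eq_ofNat_of_zero_le hn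
  rw [← Q_periodic k y hp m]
  unfold Q
  rw [← Finset.prod_mul_distrib]
  refine Finset.prod_congr rfl fun i hi => ?_
  have hi' := Finset.mem_range.1 hi
  have hyp : 0 < y ((m : ℤ) - i) := hy _ (by omega)
  field_simp

/-- the coefficients converge as soon as one positive solution is asymptotic to a positive
`(k+2)`-periodic sequence -/
lemma alpha_tendsto (k : ℕ) (α : ℕ → ℝ) (x y : ℤ → ℝ) (hx : IsPosSol k α x)
    (hy : ∀ n : ℤ, -(2 * k + 2) ≤ n → 0 < y n)
    (hp : ∀ n : ℤ, -(2 * k + 2) ≤ n → y (n + k + 2) = y n)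
    (hxy : Tendsto (fun n : ℤ => x n - y n) atTop (𝓝 0)) :
    Tendsto α atTop (𝓝 (Q k y 0 - 1)) := by
  have hQ := Q_tendsto k x y hy hp hxy
  have hC : 0 < Q k y 0 := by
    refine Finset.prod_pos fun i hi => hy _ ?_
    have := Finset.mem_range.1 hi
    omega
  have a1 : Tendsto (fun n : ℕ => Q k x ((n : ℤ) + 1)) atTop (𝓝 (Q k y 0)) :=
    hQ.comp (tendsto_atTop_add_const_right _ (1 : ℤ) tendsto_natCast_atTop_atTop)
  have a2 : Tendsto (fun n : ℕ => Q k x (n : ℤ)) atTop (𝓝 (Q k y 0)) :=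
    hQ.comp tendsto_natCast_atTop_atTop
  have a3 : Tendsto (fun n : ℕ => Q k x ((n : ℤ) - k - 1)) atTop (𝓝 (Q k y 0)) := by
    have : Tendsto (fun n : ℕ => (n : ℤ) - k - 1) atTop atTop := by
      have := tendsto_atTop_add_const_right atTop (-(k : ℤ) - 1)
        (tendsto_natCast_atTop_atTop (R := ℤ))
      refine this.congr fun n => by ring
    exact hQ.comp this
  have a4 := a1.sub (a2.div a3 hC.ne')
  rw [div_self hC.ne'] at a4
  refine a4.congr fun n => ?_
  simp only [Pi.div_apply]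
  rw [Q_rec k α x hx n]; ring

/-- a convergent periodic sequence is constant -/
lemma const_of_tendsto (α : ℕ → ℝ) (p : ℕ) (hp : 0 < p) (hper : ∀ n, α (n + p) = α n) (L : ℝ)
    (h : Tendsto α atTop (𝓝 L)) (n : ℕ) : α n = L := by
  have h1 : ∀ m : ℕ, α (n + m * p) = α n := by
    intro m
    induction m with
    | zero => simp
    | succ m ih => rw [← ih, ← hper (n + m * p)]; congr 1; ring
  have h2 : Tendsto (fun m : ℕ => n + m * p) atTop atTop := by
    refine tendsto_atTop_mono (fun m => ?_) tendsto_id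
    have : m * 1 ≤ m * p := Nat.mul_le_mul_left m hp
    simp only [id]; omega
  have h3 := h.comp h2
  have h4 : (α ∘ fun m : ℕ => n + m * p) = fun _ => α n := funext fun m => h1 m
  rw [h4] at h3
  exact tendsto_nhds_unique tendsto_const_nhds h3

/-- a positive solution with all initial values `1` -/
noncomputable def X (k : ℕ) (α : ℕ → ℝ) (n : ℕ) : ℝ :=
  if h : n < 2 * k + 3 then 1 else
    α (n - (2 * k + 3)) / ∏ i : Fin (k + 1), X k α (n - 1 - i)
      + 1 / ∏ i : Fin (k + 1), X k α (n - k - 3 - i)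
termination_by n
decreasing_by all_goals omega

lemma X_pos (k : ℕ) (α : ℕ → ℝ) (hα : ∀ n, 0 ≤ α n) (n : ℕ) : 0 < X k α n := by
  induction n using Nat.strong_induction_on with
  | _ n ih =>
    rw [X]
    split_ifs with h
    · exact one_pos
    · refine add_pos_of_nonneg_of_pos (div_nonneg (hα _) ?_) (one_div_pos.2 ?_)
      · exact (Finset.prod_pos fun i _ => ih _ (by omega)).le
      · exact Finset.prod_pos fun i _ => ih _ (by omega)

lemma exists_sol (k : ℕ) (α : ℕ → ℝ) (hα : ∀ n, 0 ≤ α n) : ∃ x, IsPosSol k α x := by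
  refine ⟨fun z => X k α (z + (2 * k + 2)).toNat, fun n _ => X_pos k α hα _, fun n => ?_⟩
  simp only
  have e1 : ((n : ℤ) + 1 + (2 * k + 2)).toNat = n + 2 * k + 3 := by omega
  rw [e1, X, dif_neg (by omega)]
  have e2 : n + 2 * k + 3 - (2 * k + 3) = n := by omega
  rw [e2, Finset.prod_range, Finset.prod_range]
  congr 2
  · refine Finset.prod_congr rfl fun i _ => ?_
    congr 1; omega
  · refine Finset.prod_congr rfl fun i _ => ?_
    congr 1; omega

/-- **Main result.**  Let `k ≥ 0`, and let `α` be nonnegative with prime period `p ≥ 2`.  Then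
positive solutions of (E) exist, none of them tends to a `(k+2)`-periodic solution (so the property
asked for never holds), and indeed no positive solution is even asymptotic to a positive
`(k+2)`-periodic sequence (in particular (E) has no positive `(k+2)`-periodic solution). -/
theorem result (k p : ℕ) (α : ℕ → ℝ) (hα : ∀ n, 0 ≤ α n) (hp : 2 ≤ p) (hper : PrimePeriod α p) :
    (∃ x, IsPosSol k α x) ∧
    (¬ ∀ x, IsPosSol k α x → TendsToPeriodic k α x) ∧
    (∀ x, IsPosSol k α x → ¬ TendsToPeriodic k α x) ∧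
    (∀ x y : ℤ → ℝ, IsPosSol k α x → (∀ n : ℤ, -(2 * k + 2) ≤ n → 0 < y n) →
      (∀ n : ℤ, -(2 * k + 2) ≤ n → y (n + k + 2) = y n) →
      ¬ Tendsto (fun n : ℤ => x n - y n) atTop (𝓝 0)) := by
  have main : ∀ x y : ℤ → ℝ, IsPosSol k α x → (∀ n : ℤ, -(2 * k + 2) ≤ n → 0 < y n) →
      (∀ n : ℤ, -(2 * k + 2) ≤ n → y (n + k + 2) = y n) →
      ¬ Tendsto (fun n : ℤ => x n - y n) atTop (𝓝 0) := by
    intro x y hx hy hyp hxy
    have hlim := alpha_tendsto k α x y hx hy hyp hxy
    have hconst := const_of_tendsto α p hper.1 hper.2.1 _ hlim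
    exact hper.2.2 1 one_pos (by omega) fun n => by rw [hconst, hconst]
  have none : ∀ x, IsPosSol k α x → ¬ TendsToPeriodic k α x := by
    rintro x hx ⟨y, hy, hyp, hxy⟩
    exact main x y hx hy.1 hyp hxy
  obtain ⟨x, hx⟩ := exists_sol k α hα
  exact ⟨⟨x, hx⟩, fun h => none x hx (h x hx), none, main⟩

end Pool.Agent.Results.MP_93a94a_an.NeverHolds
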